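import Pool.Agent.H97.SD.Targets

/-!
# Row PAT of the board `szd_modules`: patterns of even and odd weight
-/

set_option autoImplicit false

open Finset

namespace Pool.Agent.H36.SD

open Pool.Agent.H97.SD

theorem flip_card {b : ℕ} (j : Fin b) (π : Fin b → Bool) :
    (Even (univ.filter (fun i => Function.update π j (!π j) i = true)).card ↔
      Odd (univ.filter (fun i => π i = true)).card) ∧
    (Odd (univ.filter (fun i => Function.update π j (!π j) i = true)).card ↔
      Even (univ.filter (fun i => π i = true)).card) := by
  cases hj : π j with
  | false =>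
    have h1 : univ.filter (fun i => Function.update π j (!false) i = true) =
        insert j (univ.filter (fun i => π i = true)) := by
      ext i
      by_cases hi : i = j
      · subst hi
        simp
      · simp [hi]
    have h2 : j ∉ univ.filter (fun i => π i = true) := by
      simp [hj]
    rw [h1, Finset.card_insert_of_notMem h2]
    exact ⟨by rw [Nat.even_add_one, Nat.not_even_iff_odd], by
      rw [Nat.odd_add_one, Nat.not_odd_iff_even]⟩
  | true =>
    have h1 : univ.filter (fun i => π i = true) =
        insert j (univ.filter (fun i => Function.update π j (!true) i = true)) := by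
      ext i
      by_cases hi : i = j
      · subst hi
        simp [hj]
      · simp [hi]
    have h2 : j ∉ univ.filter (fun i => Function.update π j (!true) i = true) := by
      simp
    rw [h1, Finset.card_insert_of_notMem h2]
    exact ⟨by rw [Nat.odd_add_one, Nat.not_odd_iff_even], by
      rw [Nat.even_add_one, Nat.not_even_iff_odd]⟩

theorem pf_PAT : P_PAT := by
  intro b hb
  obtain ⟨E, hE⟩ : ∃ E : Finset (Fin b → Bool), E = univ.filter (fun π : Fin b → Bool =>
      Even (univ.filter (fun i => π i = true)).card) := ⟨_, rfl⟩
  obtain ⟨O, hO⟩ : ∃ O : Finset (Fin b → Bool), O = univ.filter (fun π : Fin b → Bool =>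
      Odd (univ.filter (fun i => π i = true)).card) := ⟨_, rfl⟩
  rw [← hE, ← hO]
  let j : Fin b := ⟨0, hb⟩
  have hinv : ∀ π : Fin b → Bool, Function.update (Function.update π j (!π j)) j
      (!(Function.update π j (!π j)) j) = π := by
    intro π
    simp
  have h1 : E.card = O.card := by
    refine Finset.card_bij' (fun π _ => Function.update π j (!π j))
      (fun π _ => Function.update π j (!π j)) ?_ ?_ ?_ ?_
    · intro π hπ
      rw [hE, Finset.mem_filter] at hπ
      rw [hO, Finset.mem_filter]
      exact ⟨Finset.mem_univ _, (flip_card j π).2.2 hπ.2⟩
    · intro π hπ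
      rw [hO, Finset.mem_filter] at hπ
      rw [hE, Finset.mem_filter]
      exact ⟨Finset.mem_univ _, (flip_card j π).1.2 hπ.2⟩
    · intro π _
      exact hinv π
    · intro π _
      exact hinv π
  have h2 : E.card + O.card = 2 ^ b := by
    have h3 : O = univ.filter (fun π : Fin b → Bool =>
        ¬ Even (univ.filter (fun i => π i = true)).card) := by
      rw [hO]
      refine Finset.filter_congr fun π _ => ?_
      rw [Nat.not_even_iff_odd]
    rw [h3, hE, Finset.card_filter_add_card_filter_not, Finset.card_univ, Fintype.card_fun,
      Fintype.card_bool, Fintype.card_fin]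
  have h3 : 2 ^ b = 2 * 2 ^ (b - 1) := by
    rw [← pow_succ']
    congr 1
    omega
  constructor <;> omega

end Pool.Agent.H36.SD
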